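import Mathlib
import Pool.Agent.R907.AllFieldsTypes
import Pool.Agent.Y1.KN.All
import Pool.Agent.Y1.KN.Use

/-!
# MP_c0b458_ag: the numerical Hodge standard conjecture over all fields of positive characteristic,
for almost all slope types of CM fields

Let `X` be an abelian variety over a field of characteristic `p`; it specializes, with its
polarization, to an abelian variety `Y` over an algebraic closure of the field with `p` elements, and
`Y` is isogenous to the reduction of an abelian variety of CM type (`RedAV`; Honda, Tate, Zink).

Let `K i` be finitely many pairwise independent CM fields, of degrees `2 g i`, and let `M i` be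
functions with nonzero integral values dividing `n i` on the complex embeddings of `K i`, invariant
under complex conjugation. There are `2 ^ (∑ i, g i)` families of CM types `Φ i` of the fields `K i`.
For such a family let `𝒞` (`OfTypes`) be the class of the abelian varieties `Y` each of whose factors
is supersingular or has a Frobenius endomorphism some power of which is, for some `i`, a Weil number
in `K i` with the slopes `(a + κ M) / 2` at the embeddings in `Φ i` and `(a - κ M) / 2` at the other
embeddings, `κ = κ i ≠ 0`. So `Y` is isogenous to a product of powers of one abelian variety for each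
`i`, with the given slopes, and of a supersingular one.

A family is exceptional (`exceptionalFamilies`) if the numerical Hodge standard conjecture fails for
some abelian variety `X`, over some field of characteristic `p`, of any dimension, with a
specialization `Y` in `𝒞` (`HodgeHolds`: `A` is the ring of cycles modulo homological equivalence on
`X` with the degree and an ample divisor, `NumHodgeRing` the numerical Hodge standard conjecture).

**Theorem.** The number of the exceptional families is at most
`2 ^ (∑ i, g i) * ∑ i, C * (n i) ^ 2 * rate (K i) (g i) (q i)`, with an absolute constant `C`. Here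
`q i` is any prime factor of `g i` (or `q i = 1`), and `rate K g q` is `(1 + log (2 g)) ^ 16` times the
smaller of `W (K) / √g` and `√g / q`; `W (K)` is a number depending on the CM subfields of `K`, at most
`N ^ 2 * D ^ (1 / 4)` if `K` has `N` CM subfields and its CM subfields which are normal with a
nonabelian Galois group have degree at most `D` (see MP_ee618e_ag AllCMFields).

So for almost all slope types of all CM fields with few CM subfields, and for almost all slope types of
all CM fields whose degree has a large prime factor, the numerical Hodge standard conjecture holds for
all abelian varieties over all fields of characteristic `p` which specialize to products of powers of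
abelian varieties of these types and supersingular ones.

The known theorems about cycles on the varieties `Y` that are used (Tate, Lefschetz, Markman, Ramón
Marí, Weil) are collected in `IsCycleSystemS`, `IsRosatiPositive` and `AreTate`; `LefschetzA` is a
theorem of Lieberman and Kleiman for abelian varieties. No conjecture is assumed.
-/

namespace Pool.Agent.Results.MP_c0b458_ag.AlmostAllTypesAllFields

open NumberField Module Pool.Agent.H204R3.CM Pool.Agent.H977R3.CM Pool.Agent.TH170
  Pool.Agent.Y1.KN Pool.Agent.R907

/-- The exceptional families of CM types. -/
def exceptionalFamilies {p : ℕ} [Fact p.Prime] (ν : PadicAlgCl p ≃+* ℂ) {I : Type} (K : I → Type)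
    [∀ i, Field (K i)] (M : ∀ i, (K i →+* ℂ) → ℤ) : Set (∀ i, Set (K i →+* ℂ)) :=
  {Φ | (∀ i, IsCMType (Φ i)) ∧ ¬ HodgeHolds ν K M Φ}

/-- **The numerical Hodge standard conjecture over all fields of characteristic `p` for almost all
slope types of CM fields.** -/
theorem result :
    ∃ C : ℝ, 0 ≤ C ∧ ∀ (p : ℕ) [Fact p.Prime] (ν : PadicAlgCl p ≃+* ℂ) (I : Type) [Fintype I]
      (K : I → Type) [∀ i, Field (K i)] [∀ i, NumberField (K i)] [∀ i, IsCMField (K i)]
      (M : ∀ i, (K i →+* ℂ) → ℤ) (n g q : I → ℕ), PairwiseIndep K →
      (∀ i φ, M i (ComplexEmbedding.conjugate φ) = M i φ) → (∀ i, n i ≠ 0) →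
      (∀ i φ, M i φ ∣ (n i : ℤ)) → (∀ i, finrank ℚ (K i) = 2 * g i) →
      (∀ i, q i ∣ g i ∧ (q i = 1 ∨ (q i).Prime)) →
      ((exceptionalFamilies ν K M).ncard : ℝ) ≤
        2 ^ (∑ i, g i) * ∑ i, C * (n i : ℝ) ^ 2 * rate (K i) (g i) (q i) := by
  obtain ⟨C, hC0, hC⟩ := slope families_holds
  refine ⟨C, hC0, ?_⟩
  intro p _ ν I _ K _ _ _ M n g q hind hM hn hMn hg hq
  exact hC p ν I K M n g q hind hM hn hMn hg hq _ fun Φ h => hodgeHolds_of K M Φ h

end Pool.Agent.Results.MP_c0b458_ag.AlmostAllTypesAllFields
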