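import Pool.Agent.R907.AllFields

/-!
# MP_c0b458_ag: the numerical Hodge standard conjecture over all fields of positive characteristic, for
abelian varieties of dimension at most five, all products of elliptic curves and abelian surfaces,
and all abelian varieties with elementary relations between the Frobenius eigenvalues

Let `X` be an abelian variety over a field of characteristic `p`. `A` is the ring of algebraic cycles
with rational coefficients on `X` modulo `ℓ`-adic homological equivalence, with the subspaces
`gr i = A^i(X)`, the degree `deg` of zero-cycles and an ample divisor `D` (`IsCycleRing`). For abelian
varieties the conjecture `A` of Lefschetz type (`LefschetzA`) is a theorem of Lieberman and Kleiman.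
The polarized variety `X` *specializes* to an abelian variety `Y` over an algebraic closure of the
field with `p` elements (`Specializes`): spread `X` out over a scheme of finite type over the field
with `p` elements; the special fibre is isogenous, with its polarization, to the reduction `Y` of a
polarized abelian variety of CM type (Honda, Tate, Zink; `RedAV`, `IsPolar`). The condition on `Y`:

* the dimension of `Y` is at most five; or
* `Y` is isogenous to a product of powers of the factors of an abelian variety `Z` with elementary
  relations between the Frobenius eigenvalues (`HasElementaryRelationsS`), and of a supersingular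
  abelian variety. So `Y` may be **any product of elliptic curves and abelian surfaces**, and many
  others.

Then the numerical Hodge standard conjecture holds for `X`, in all codimensions: if `z` is a class
of codimension `r`, primitive modulo numerical equivalence and not numerically equivalent to zero, then
`(-1)^r z · z · D^m > 0`, `dim X = 2 r + m` (`NumHodgeRing`).

So the conjecture holds for all abelian varieties `X` of dimension at most five over all fields (if `X`
has dimension at most five so has `Y`), and for all `X` isogenous to products of elliptic curves and
abelian surfaces.

The spaces `C Y κ` of the rational classes of algebraic cycles on the varieties `Y` have the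
properties in `IsCycleSystemS`, `IsRosatiPositive` and `AreTate`, all of which are known theorems
(Tate, Lefschetz, Markman, Ramón Marí, Weil). No conjecture is assumed.

The proof: the positivity for `Y` (starting library `Y137.HS`) implies that homological and numerical
equivalence agree on `X` (`Y137.HD`), so that numerically primitive classes are primitive; the class
`(-1)^r z · z · D^m` is a positive multiple of `D^n`, since this is true after specialization.
-/

set_option autoImplicit false

universe u

namespace Pool.Agent.Results.MP_c0b458_ag.DimensionFiveAllFields

open Module Pool.Agent.W495.TA Pool.Agent.W547.KB Pool.Agent.TH117.PO Pool.Agent.TH117.BL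
  Pool.Agent.Y137.HS Pool.Agent.Y137.HD Pool.Agent.Y137.SF Pool.Agent.R907

/-- **The numerical Hodge standard conjecture for abelian varieties of dimension at most five, for
products of elliptic curves and abelian surfaces, and for abelian varieties with elementary relations
between the Frobenius eigenvalues, over all fields of characteristic `p`.** -/
theorem result (p : ℕ) [Fact p.Prime] (ν : PadicAlgCl p ≃+* ℂ) (Ω : Type) [Field Ω]
    [IsAlgClosed Ω] [CharZero Ω]
    (C : (Y : RedAV p ν) → (κ : Type) → ((TM Ω Y) [⋀^κ]→ₗ[Ω] Ω) → Prop)
    (hC : IsCycleSystemS Ω C) (hR : IsRosatiPositive Ω C) (hT : AreTate Ω C)
    {A : Type u} [CommRing A] [Algebra ℚ A] (n : ℕ) (gr : ℕ → Submodule ℚ A) (deg : A →ₗ[ℚ] ℚ)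
    (D : A) (hX : IsCycleRing n gr deg D) (hA : LefschetzA n gr D) (Y : RedAV p ν)
    (hY : finrank ℚ Y.X.H1 ≤ 10 ∨
      ∃ Z : RedAV p ν, HasElementaryRelationsS Z ∧ IsPowersTimesSupersingular Z Y)
    (α : Y.X.H1) (hα : IsPolar Y.X α) (sp : ∀ r : ℕ, A → Form Ω Y r)
    (hsp : Specializes C n gr D Y α sp) : NumHodgeRing n gr deg D :=
  numHodge_of_specializes hC hR hT hY hα hsp hX hA

end Pool.Agent.Results.MP_c0b458_ag.DimensionFiveAllFields
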