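import Pool.Agent.R919.FF.EPow3

/-!
# MP_c0b458_ag: the numerical Hodge standard conjecture for the products of an arbitrary abelian variety
of dimension `g` with the powers of all but at most `g` ordinary elliptic curves

Let `E_i`, for `i` in any set of indices, be ordinary elliptic curves over an algebraic closure of a
finite field with pairwise different quadratic fields (which means that they are pairwise not
isogenous).

* For every divisor `D` of positive degree on `E_i` and all `n` the standard conjecture of Hodge type
  holds for `E_i ^ (n + 1)` and the sum of the pull-backs of `D`, and homological equivalence is
  numerical equivalence on it (the first statement; it is proved here in the axiomatic setting, and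
  it follows from known theorems for elliptic curves).
* The numerical Hodge standard conjecture holds for all products `Q` of powers of different `E_i`,
  polarized by sums of polarizations of the factors `E_i ^ n_i` as in the first statement, or by
  other ones for which the standard conjecture of Hodge type holds.
* Let `A` be **any** abelian variety, of dimension `g`. There is a set `S` of at most `g` indices such
  that for all `Q` as above whose factors are powers of the `E_i` with `i ∉ S`, and for all polarized
  varieties `T` whose Frobenius eigenvalues are generated by those of `A` up to powers of `p` and
  roots (for example all powers of `A`, and all abelian varieties all of whose simple factors are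
  factors of `A` or supersingular) the numerical Hodge standard conjecture holds for `Q × T` **if and
  only if** it holds for `T`, and homological equivalence is numerical equivalence on `Q × T`.

For the varieties `T` it is assumed that the hard Lefschetz theorem holds and that homological
equivalence is numerical equivalence (for abelian varieties over finite fields the second is a theorem
of Clozel for infinitely many `ℓ`). The bound `g` for the number of the exceptional curves is sharp:
take for `A` a product of `g` of the elliptic curves.

So, for example, if `A` has dimension at most four (where the conjecture is known by Ancona) it holds
for `A × Q` for all products `Q`, of arbitrary dimension, of powers of the other ordinary elliptic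
curves.

The proof. The rank modulo `p` of the group generated by the Frobenius eigenvalues of an abelian variety
of dimension `g` is at most `g`; the groups for the `E_i` are independent and have rank one, so that
all but `g` of them together are independent of the group of `A`. Then the classes of all cycles on
`Q × T` are sums of external products, and the Lefschetz decompositions of the two factors give the
sign. For the powers of `E_i` the eigenvalues satisfy only the obvious relations, so that
the classes of all cycles are known.
-/

set_option autoImplicit false

open CategoryTheory AlgebraicGeometry

universe u v w

namespace Pool.Agent.Results.MP_c0b458_ag.FewEllipticCurves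

open Pool.Agent.H914 Pool.Agent.W534 VarClass Obj WeilCohomology Pool.Agent.H281R3.HT
  Pool.Agent.R907 Pool.Agent.R919.FF

theorem result {k : Type u} [Field k] {𝒱 : VarClass k} {ops : CycleOps 𝒱}
    (W : WeilCohomology.{u, v} ops) [IsAlgClosed W.K] (σ : W.K →+* ℂ) (p : ℕ)
    (hp : p.Prime) (Φ : FrobSystem W p) (hRH : ∀ Z : 𝒱.Obj, RiemannHyp Φ σ Z)
    {I : Type w} (E : I → 𝒱.Obj) (a : I → ℤ) (hE : EllipticFamily Φ σ E a) :
    (∀ (i : I) (D : (E i).Cycles), (E i).IsCyc 1 D →
      0 < (E i).V.degCycle (divPow ops D (E i).dim (E i).V.fundCycle) →
        ∀ n, IsHodgePol W (power (E i) n) (powDiv ops D n)) ∧
    (∀ (F : Finset I) (Q : Polarized 𝒱), IsMixedPol W E F Q → NumHodge ops Q) ∧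
    ∀ (A : 𝒱.Obj) (g : ℕ), IsAbelian W A g → ∃ S : Finset I, S.card ≤ g ∧
      ∀ (F : Finset I) (Q : Polarized 𝒱), IsMixedPol W E F Q → Disjoint F S →
        ∀ T : Polarized 𝒱, GeneratedBy Φ σ A T.X → IsNumPol W T → NumIff W Q T :=
  final_num W σ p hp Φ hRH E a hE

end Pool.Agent.Results.MP_c0b458_ag.FewEllipticCurves
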