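import Pool.Agent.R907.AniNum

/-!
# MP_c0b458_ag: the numerical Hodge standard conjecture is a statement about self-intersection numbers
zero in the middle codimension

Let `𝓟` be a class of polarized varieties `(X, D)` over a field `k` which is closed under products
(with the divisors `D × Y + X × D'`) and contains a curve, for example the class of all polarized
abelian varieties over `k`, or the products of the powers of one polarized abelian variety and of an
elliptic curve. The following are equivalent:

* the numerical Hodge standard conjecture holds for all members of `𝓟`, in all codimensions;
* for arbitrarily large `n` (for example for the powers of two) the following holds: on no member of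
  dimension `2 n` is there a primitive class `z ≠ 0` modulo numerical equivalence, of codimension `n`,
  with `z · z = 0`.

So the positivity, in all codimensions and for all dimensions, follows if the intersection form on
the primitive classes of middle codimension represents zero only trivially, in a sequence of
dimensions; the existence of one negative class on one member of `𝓟` implies the existence of an
isotropic primitive class of middle codimension on members of all large even dimensions.

The theorem is about algebraic cycles only. The Weil cohomology theory `W` (for example `ℓ`-adic
cohomology) is used in the proof; no Lefschetz theorem and no conjecture is assumed.
-/

open CategoryTheory AlgebraicGeometry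

universe u v

namespace Pool.Agent.Results.MP_c0b458_ag.SelfIntersectionZero

open Pool.Agent.H914 Pool.Agent.H281R3.HT Pool.Agent.R907 VarClass Obj

/-- **The numerical Hodge standard conjecture holds for all members of a class of polarized varieties
which is closed under products if and only if, in arbitrarily large even dimensions, no nonzero
primitive class of middle codimension has self-intersection number zero.** -/
theorem result {k : Type u} [Field k] {𝒱 : VarClass k} {ops : CycleOps 𝒱}
    (W : WeilCohomology.{u, v} ops) (𝓟 : Set (Polarized 𝒱)) (h : IsPolarizedClass ops 𝓟) :
    (∀ P ∈ 𝓟, NumHodge ops P) ↔
      ∀ N : ℕ, ∃ n ≥ N, ∀ P ∈ 𝓟, P.X.dim = 2 * n → NoIsotropic ops P n :=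
  numHodge_iff W h

end Pool.Agent.Results.MP_c0b458_ag.SelfIntersectionZero
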